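import Pool.Agent.KK.StmtsE

/-!
Squad KK, row E_BIC (E19): crossing of a gap with a bi-coloured minimal non-normal set (helper47).
-/

set_option autoImplicit false

namespace Pool.Agent.KK.E.H47

open Pool.Agent.KK Pool.Agent.KK.E

/-! ### The letters of the word -/

theorem low_length (p q : ℕ) : (low p q).length = p + q + 1 := by
  simp only [low, List.length_append, List.length_replicate, List.length_singleton]
  omega

theorem high_length (p q : ℕ) : (high p q).length = p + q + 1 := by
  simp only [high, List.length_cons, List.length_append, List.length_replicate]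
  omega

theorem word_low (p q i : ℕ) (hi : i < p + q + 1) :
    (word p q).getD i false = (low p q).getD i false := by
  unfold word
  rw [List.append_assoc, List.getD_append]
  rw [low_length]
  exact hi

theorem word_mid (p q i : ℕ) (hi : p + q + 1 ≤ i) (hi2 : i < 2 * (p + q + 2) - 1) :
    (word p q).getD i false =
      (List.replicate (q + 1) false ++ List.replicate (p + 1) true).getD (i - (p + q + 1)) false := by
  unfold word
  rw [List.append_assoc, List.getD_append_right _ _ _ _ (by rw [low_length]; exact hi),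
    low_length, List.getD_append]
  rw [List.length_append, List.length_replicate, List.length_replicate]
  omega

theorem word_midY (p q i : ℕ) (hi : p + q + 1 ≤ i) (hi2 : i < p + q + 2 + q) :
    (word p q).getD i false = false := by
  rw [word_mid p q i hi (by omega), List.getD_append]
  · exact List.getD_replicate _ (by omega)
  · rw [List.length_replicate]
    omega

theorem word_midX (p q i : ℕ) (hi : p + q + 2 + q ≤ i) (hi2 : i < 2 * (p + q + 2) - 1) :
    (word p q).getD i false = true := by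
  rw [word_mid p q i (by omega) hi2, List.getD_append_right _ _ _ _ (by
    rw [List.length_replicate]; omega), List.length_replicate]
  exact List.getD_replicate _ (by omega)

theorem word_high (p q i : ℕ) (hi : 2 * (p + q + 2) - 1 ≤ i) :
    (word p q).getD i false = (high p q).getD (i - (2 * (p + q + 2) - 1)) false := by
  unfold word
  have h : (low p q ++ (List.replicate (q + 1) false ++ List.replicate (p + 1) true)).length =
      2 * (p + q + 2) - 1 := by
    rw [List.length_append, low_length, List.length_append, List.length_replicate,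
      List.length_replicate]
    omega
  rw [List.getD_append_right _ _ _ _ (by rw [h]; exact hi), h]

/-! ### Windows -/

/-- The window of length `k` starting at `a`. -/
def win (m k a : ℕ) : Finset (Fin m) :=
  Finset.univ.filter fun i : Fin m => a ≤ (i : ℕ) ∧ (i : ℕ) < a + k

theorem win_card (m k a : ℕ) (h : a + k ≤ m) (P : ℕ → Prop) [DecidablePred P] :
    ((win m k a).filter fun i : Fin m => P (i : ℕ)).card =
      ((Finset.range k).filter fun i => P (a + i)).card := by
  symm
  refine Finset.card_bij (fun i hi => ⟨a + i, by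
    have := Finset.mem_range.1 (Finset.mem_filter.1 hi).1
    omega⟩) ?_ ?_ ?_
  · intro i hi
    have h1 := Finset.mem_range.1 (Finset.mem_filter.1 hi).1
    have h2 := (Finset.mem_filter.1 hi).2
    refine Finset.mem_filter.2 ⟨Finset.mem_filter.2 ⟨Finset.mem_univ _, ?_, ?_⟩, h2⟩
    · show a ≤ a + i
      omega
    · show a + i < a + k
      omega
  · intro i hi j hj hij
    have := congrArg Fin.val hij
    simp only at this
    omega
  · intro j hj
    have h1 := (Finset.mem_filter.1 (Finset.mem_filter.1 hj).1).2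
    have h2 := (Finset.mem_filter.1 hj).2
    refine ⟨j.1 - a, Finset.mem_filter.2 ⟨Finset.mem_range.2 (by omega), ?_⟩, ?_⟩
    · have : a + (j.1 - a) = j.1 := by omega
      rw [this]
      exact h2
    · apply Fin.ext
      show a + (j.1 - a) = j.1
      omega

theorem win_card_all (m k a : ℕ) (h : a + k ≤ m) : (win m k a).card = k := by
  have h1 := win_card m k a h (fun _ => True)
  simp only [Finset.filter_true, Finset.card_range] at h1
  exact h1

section Main

variable {V : Type} [Fintype V] [DecidableEq V]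

/-- Number of positions of a set of positions with a given letter: fixed plus generic. -/
theorem fixed_count (X M' : Finset V) {m : ℕ} (l : Fin m → Bool) (o : Fin m → Option V)
    (w : Finset (Fin m)) (b : Bool)
    (hinj : ∀ i i' v, o i = some v → o i' = some v → i = i')
    (hM' : ∀ v, v ∈ M' ↔ ∃ i ∈ w, o i = some v)
    (hl : ∀ i v, o i = some v → (l i = true ↔ v ∈ X)) :
    (w.filter fun i => l i = b).card =
      (w.filter fun i => o i = none ∧ l i = b).card +
        (M'.filter fun v => decide (v ∈ X) = b).card := by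
  classical
  have h1 : (w.filter fun i => l i = b).card =
      (w.filter fun i => o i = none ∧ l i = b).card +
        (w.filter fun i => o i ≠ none ∧ l i = b).card := by
    rw [← Finset.card_union_of_disjoint]
    · congr 1
      ext i
      simp only [Finset.mem_filter, Finset.mem_union]
      tauto
    · rw [Finset.disjoint_left]
      intro i hi hi2
      exact (Finset.mem_filter.1 hi2).2.1 (Finset.mem_filter.1 hi).2.1
  rw [h1]
  congr 1
  refine Finset.card_bij (fun i hi => (o i).get (Option.isSome_iff_ne_none.2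
    (Finset.mem_filter.1 hi).2.1)) ?_ ?_ ?_
  · intro i hi
    have hi' := Finset.mem_filter.1 hi
    obtain ⟨v, hv⟩ := Option.ne_none_iff_exists'.1 hi'.2.1
    have h2 : (o i).get (Option.isSome_iff_ne_none.2 hi'.2.1) = v := by
      simp only [hv, Option.get_some]
    rw [h2]
    refine Finset.mem_filter.2 ⟨(hM' v).2 ⟨i, hi'.1, hv⟩, ?_⟩
    have h3 := hl i v hv
    rw [← hi'.2.2]
    by_cases hx : v ∈ X
    · rw [h3.2 hx]
      exact decide_eq_true hx
    · have : l i = false := by
        cases hli : l i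
        · rfl
        · exact absurd (h3.1 hli) hx
      rw [this]
      exact decide_eq_false hx
  · intro i hi j hj hij
    have hi' := Finset.mem_filter.1 hi
    have hj' := Finset.mem_filter.1 hj
    obtain ⟨v, hv⟩ := Option.ne_none_iff_exists'.1 hi'.2.1
    obtain ⟨v', hv'⟩ := Option.ne_none_iff_exists'.1 hj'.2.1
    simp only [hv, hv', Option.get_some] at hij
    rw [hij] at hv
    exact hinj i j v' hv hv'
  · intro v hv
    obtain ⟨hvM, hvX⟩ := Finset.mem_filter.1 hv
    obtain ⟨i, hi, hiv⟩ := (hM' v).1 hvM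
    have h3 := hl i v hiv
    refine ⟨i, Finset.mem_filter.2 ⟨hi, ?_, ?_⟩, ?_⟩
    · rw [hiv]
      exact Option.some_ne_none v
    · rw [← hvX]
      by_cases hx : v ∈ X
      · rw [h3.2 hx]
        exact (decide_eq_true hx).symm
      · have : l i = false := by
          cases hli : l i
          · rfl
          · exact absurd (h3.1 hli) hx
        rw [this]
        exact (decide_eq_false hx).symm
    · simp only [hiv, Option.get_some]

/-! ### The fixed positions -/

/-- The fixed positions. -/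
noncomputable def fx (X M : Finset V) (p q : ℕ) (i : Fin (3 * (p + q + 2) - 2)) : Option V :=
  if h : p + q + 1 ≤ (i : ℕ) ∧ (i : ℕ) < p + q + 1 + (M \ X).card then
    some ((M \ X).equivFin.symm ⟨(i : ℕ) - (p + q + 1), by omega⟩).1
  else if h : 2 * (p + q + 2) - 1 - (M ∩ X).card ≤ (i : ℕ) ∧ (i : ℕ) < 2 * (p + q + 2) - 1 then
    some ((M ∩ X).equivFin.symm ⟨(i : ℕ) - (2 * (p + q + 2) - 1 - (M ∩ X).card), by omega⟩).1
  else none

theorem fx_cases (X M : Finset V) (p q : ℕ) (i : Fin (3 * (p + q + 2) - 2)) (v : V)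
    (h : fx X M p q i = some v) :
    (p + q + 1 ≤ (i : ℕ) ∧ (i : ℕ) < p + q + 1 + (M \ X).card ∧ v ∈ M \ X) ∨
      (2 * (p + q + 2) - 1 - (M ∩ X).card ≤ (i : ℕ) ∧ (i : ℕ) < 2 * (p + q + 2) - 1 ∧
        v ∈ M ∩ X) := by
  unfold fx at h
  split_ifs at h with h1 h2
  · left
    refine ⟨h1.1, h1.2, ?_⟩
    rw [← Option.some_injective _ h]
    exact Subtype.property _
  · right
    refine ⟨h2.1, h2.2, ?_⟩
    rw [← Option.some_injective _ h]
    exact Subtype.property _

theorem fx_inj (X M : Finset V) (p q : ℕ) (i i' : Fin (3 * (p + q + 2) - 2)) (v : V)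
    (h : fx X M p q i = some v) (h' : fx X M p q i' = some v) : i = i' := by
  have hc := fx_cases X M p q i v h
  have hc' := fx_cases X M p q i' v h'
  unfold fx at h h'
  split_ifs at h with h1 h2
  · split_ifs at h' with h1' h2'
    · have e := Subtype.ext ((Option.some_injective _ h).trans (Option.some_injective _ h').symm)
      have e2 := congrArg Fin.val ((M \ X).equivFin.symm.injective e)
      simp only at e2
      apply Fin.ext
      omega
    · rcases hc with hc | hc
      · rcases hc' with hc' | hc'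
        · exact absurd ⟨hc'.1, hc'.2.1⟩ h1'
        · exact absurd (Finset.mem_inter.1 hc'.2.2).2 (Finset.mem_sdiff.1 hc.2.2).2
      · have hv : v ∈ M \ X := by
          rw [← Option.some_injective _ h]
          exact Subtype.property _
        exact absurd (Finset.mem_inter.1 hc.2.2).2 (Finset.mem_sdiff.1 hv).2
  · split_ifs at h' with h1' h2'
    · have hv : v ∈ M ∩ X := by
        rw [← Option.some_injective _ h]
        exact Subtype.property _
      have hv' : v ∈ M \ X := by
        rw [← Option.some_injective _ h']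
        exact Subtype.property _
      exact absurd (Finset.mem_inter.1 hv).2 (Finset.mem_sdiff.1 hv').2
    · have e := Subtype.ext ((Option.some_injective _ h).trans (Option.some_injective _ h').symm)
      have e2 := congrArg Fin.val ((M ∩ X).equivFin.symm.injective e)
      simp only at e2
      apply Fin.ext
      omega

theorem fx_surj (X M : Finset V) (p q : ℕ) (h1 : (M \ X).card ≤ q + 1)
    (h2 : (M ∩ X).card ≤ p + 1) (v : V) (hv : v ∈ M) : ∃ i, fx X M p q i = some v := by
  by_cases hx : v ∈ X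
  · have hm : v ∈ M ∩ X := Finset.mem_inter.2 ⟨hv, hx⟩
    have hj := ((M ∩ X).equivFin ⟨v, hm⟩).2
    refine ⟨⟨2 * (p + q + 2) - 1 - (M ∩ X).card + ((M ∩ X).equivFin ⟨v, hm⟩).1, by omega⟩, ?_⟩
    unfold fx
    rw [dif_neg, dif_pos]
    · have e : (⟨2 * (p + q + 2) - 1 - (M ∩ X).card + ((M ∩ X).equivFin ⟨v, hm⟩).1 -
          (2 * (p + q + 2) - 1 - (M ∩ X).card), by omega⟩ : Fin (M ∩ X).card) =
          (M ∩ X).equivFin ⟨v, hm⟩ := by
        apply Fin.ext
        show _ + _ - _ = _
        omega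
      rw [e, Equiv.symm_apply_apply]
    · constructor
      · show _ ≤ _ + _
        omega
      · show _ + _ < _
        omega
    · rintro ⟨_, hb⟩
      have hb' : 2 * (p + q + 2) - 1 - (M ∩ X).card + ((M ∩ X).equivFin ⟨v, hm⟩).1 <
        p + q + 1 + (M \ X).card := hb
      omega
  · have hm : v ∈ M \ X := Finset.mem_sdiff.2 ⟨hv, hx⟩
    have hj := ((M \ X).equivFin ⟨v, hm⟩).2
    refine ⟨⟨p + q + 1 + ((M \ X).equivFin ⟨v, hm⟩).1, by omega⟩, ?_⟩
    unfold fx
    rw [dif_pos]
    · have e : (⟨p + q + 1 + ((M \ X).equivFin ⟨v, hm⟩).1 - (p + q + 1), by omega⟩ :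
          Fin (M \ X).card) = (M \ X).equivFin ⟨v, hm⟩ := by
        apply Fin.ext
        show _ + _ - _ = _
        omega
      rw [e, Equiv.symm_apply_apply]
    · constructor
      · show _ ≤ _ + _
        omega
      · show _ + _ < _
        omega

/-- The letters. -/
def lt (p q : ℕ) (i : Fin (3 * (p + q + 2) - 2)) : Bool := (word p q).getD (i : ℕ) false

theorem fx_letter (X M : Finset V) (p q : ℕ) (h1 : (M \ X).card ≤ q + 1)
    (h2 : (M ∩ X).card ≤ p + 1) (i : Fin (3 * (p + q + 2) - 2)) (v : V)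
    (h : fx X M p q i = some v) : lt p q i = true ↔ v ∈ X := by
  unfold lt
  rcases fx_cases X M p q i v h with hc | hc
  · rw [word_midY p q i hc.1 (by omega)]
    constructor
    · intro h3
      exact absurd h3 (by decide)
    · intro h3
      exact absurd h3 (Finset.mem_sdiff.1 hc.2.2).2
  · rw [word_midX p q i (by omega) hc.2.1]
    constructor
    · intro _
      exact (Finset.mem_inter.1 hc.2.2).2
    · intro _
      rfl

/-! ### The windows -/

theorem win_letters (h18 : StmtE18) (p q a : ℕ) (ha : a + (p + q + 2) ≤ 3 * (p + q + 2) - 2) :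
    ((win (3 * (p + q + 2) - 2) (p + q + 2) a).filter fun i => lt p q i = true).card =
        (if a < p + q + 1 then p else if a = p + q + 1 then p + 1 else p + 2) ∧
      ((win (3 * (p + q + 2) - 2) (p + q + 2) a).filter fun i => lt p q i = false).card =
        (if a < p + q + 1 then q + 2 else if a = p + q + 1 then q + 1 else q) := by
  have h1 := win_card (3 * (p + q + 2) - 2) (p + q + 2) a ha
    (fun i => (word p q).getD i false = true)
  have h2 := (h18 p q a ha).2
  have h3 : ((win (3 * (p + q + 2) - 2) (p + q + 2) a).filter fun i => lt p q i = true).card =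
        (if a < p + q + 1 then p else if a = p + q + 1 then p + 1 else p + 2) := by
    rw [← h2]
    exact h1
  refine ⟨h3, ?_⟩
  have h4 := Finset.card_filter_add_card_filter_not
    (s := win (3 * (p + q + 2) - 2) (p + q + 2) a) (fun i => lt p q i = true)
  rw [win_card_all _ _ _ ha, h3] at h4
  have h5 : ((win (3 * (p + q + 2) - 2) (p + q + 2) a).filter fun i => ¬ lt p q i = true) =
      ((win (3 * (p + q + 2) - 2) (p + q + 2) a).filter fun i => lt p q i = false) := by
    ext i
    simp only [Finset.mem_filter, Bool.not_eq_true]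
  rw [h5] at h4
  split_ifs at h4 ⊢ <;> omega

/-- The fixed vertices in a window. -/
noncomputable def part (X M : Finset V) (p q a : ℕ) : Finset V :=
  M.filter fun v => ∃ i ∈ win (3 * (p + q + 2) - 2) (p + q + 2) a, fx X M p q i = some v

theorem mem_part (X M : Finset V) (p q a : ℕ) (v : V) :
    v ∈ part X M p q a ↔
      ∃ i ∈ win (3 * (p + q + 2) - 2) (p + q + 2) a, fx X M p q i = some v := by
  constructor
  · intro h
    exact (Finset.mem_filter.1 h).2
  · rintro ⟨i, hi, hv⟩
    refine Finset.mem_filter.2 ⟨?_, i, hi, hv⟩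
    rcases fx_cases X M p q i v hv with hc | hc
    · exact (Finset.mem_sdiff.1 hc.2.2).1
    · exact (Finset.mem_inter.1 hc.2.2).1

theorem window_dens (h05 : StmtE05) (h18 : StmtE18) (H : Finset (Finset V)) (X M : Finset V)
    (p q a : ℕ) (hX : X.Nonempty) (hXc : (Xᶜ).Nonempty) (h1 : (M \ X).card ≤ q + 1)
    (h2 : (M ∩ X).card ≤ p + 1) (ha : a + (p + q + 2) ≤ 3 * (p + q + 2) - 2) (e e' : ℕ)
    (he : (if a < p + q + 1 then p else if a = p + q + 1 then p + 1 else p + 2) = e)
    (he' : (if a < p + q + 1 then q + 2 else if a = p + q + 1 then q + 1 else q) = e') :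
    (part X M p q a ∩ X).card ≤ e ∧ (part X M p q a \ X).card ≤ e' ∧
      dens (bx X (lt p q) (fx X M p q))
        (fun f => (win (3 * (p + q + 2) - 2) (p + q + 2) a).image f ∈ H) =
      D H X (part X M p q a) (e - (part X M p q a ∩ X).card)
        (e' - (part X M p q a \ X).card) := by
  have hw := win_letters h18 p q a ha
  rw [he, he'] at hw
  have c1 := fixed_count X (part X M p q a) (lt p q) (fx X M p q)
    (win (3 * (p + q + 2) - 2) (p + q + 2) a) true (fx_inj X M p q) (mem_part X M p q a)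
    (fx_letter X M p q h1 h2)
  have c2 := fixed_count X (part X M p q a) (lt p q) (fx X M p q)
    (win (3 * (p + q + 2) - 2) (p + q + 2) a) false (fx_inj X M p q) (mem_part X M p q a)
    (fx_letter X M p q h1 h2)
  have s1 : ((part X M p q a).filter fun v => decide (v ∈ X) = true) = part X M p q a ∩ X := by
    ext v
    simp only [Finset.mem_filter, Finset.mem_inter, decide_eq_true_eq]
  have s2 : ((part X M p q a).filter fun v => decide (v ∈ X) = false) = part X M p q a \ X := by
    ext v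
    simp only [Finset.mem_filter, Finset.mem_sdiff, decide_eq_false_iff_not]
  rw [s1, hw.1] at c1
  rw [s2, hw.2] at c2
  refine ⟨by omega, by omega, ?_⟩
  exact h05 V (Fin (3 * (p + q + 2) - 2)) H X (part X M p q a) (lt p q) (fx X M p q)
    (win (3 * (p + q + 2) - 2) (p + q + 2) a) _ _ hX hXc (mem_part X M p q a)
    (by omega) (by omega)

theorem fx_first (X M : Finset V) (p q : ℕ) (hne : (M \ X).Nonempty) :
    ∃ v, fx X M p q ⟨p + q + 1, by omega⟩ = some v := by
  have h := Finset.card_pos.2 hne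
  refine ⟨((M \ X).equivFin.symm ⟨p + q + 1 - (p + q + 1), by omega⟩).1, ?_⟩
  unfold fx
  rw [dif_pos]
  exact ⟨le_refl _, by
    show p + q + 1 < p + q + 1 + (M \ X).card
    omega⟩

theorem fx_last (X M : Finset V) (p q : ℕ) (h1 : (M \ X).card ≤ q + 1)
    (hne : (M ∩ X).Nonempty) :
    ∃ v, fx X M p q ⟨2 * (p + q + 2) - 2, by omega⟩ = some v := by
  have h := Finset.card_pos.2 hne
  refine ⟨((M ∩ X).equivFin.symm ⟨2 * (p + q + 2) - 2 - (2 * (p + q + 2) - 1 - (M ∩ X).card),
      by omega⟩).1, ?_⟩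
  unfold fx
  rw [dif_neg, dif_pos]
  · constructor
    · show 2 * (p + q + 2) - 1 - (M ∩ X).card ≤ 2 * (p + q + 2) - 2
      omega
    · show 2 * (p + q + 2) - 2 < 2 * (p + q + 2) - 1
      omega
  · rintro ⟨_, hb⟩
    have hb' : 2 * (p + q + 2) - 2 < p + q + 1 + (M \ X).card := hb
    omega

theorem part_sub (X M : Finset V) (p q a : ℕ) : part X M p q a ⊆ M := Finset.filter_subset _ _

theorem part_ssub (X M : Finset V) (p q a : ℕ) (h1 : (M \ X).card ≤ q + 1)
    (hneX : (M ∩ X).Nonempty) (hneY : (M \ X).Nonempty) (ha : a ≠ p + q + 1) :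
    part X M p q a ⊂ M := by
  refine ⟨part_sub X M p q a, fun hsub => ?_⟩
  rcases Nat.lt_or_gt_of_ne ha with hlt | hgt
  · obtain ⟨v, hv⟩ := fx_last X M p q h1 hneX
    have hvM : v ∈ M := by
      rcases fx_cases X M p q _ v hv with hc | hc
      · exact (Finset.mem_sdiff.1 hc.2.2).1
      · exact (Finset.mem_inter.1 hc.2.2).1
    obtain ⟨i, hi, hiv⟩ := (mem_part X M p q a v).1 (hsub hvM)
    have hii := fx_inj X M p q _ _ v hv hiv
    have hi2 := (Finset.mem_filter.1 hi).2
    rw [← hii] at hi2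
    have h3 : 2 * (p + q + 2) - 2 < a + (p + q + 2) := hi2.2
    omega
  · obtain ⟨v, hv⟩ := fx_first X M p q hneY
    have hvM : v ∈ M := by
      rcases fx_cases X M p q _ v hv with hc | hc
      · exact (Finset.mem_sdiff.1 hc.2.2).1
      · exact (Finset.mem_inter.1 hc.2.2).1
    obtain ⟨i, hi, hiv⟩ := (mem_part X M p q a v).1 (hsub hvM)
    have hii := fx_inj X M p q _ _ v hv hiv
    have hi2 := (Finset.mem_filter.1 hi).2
    rw [← hii] at hi2
    have h3 : a ≤ p + q + 1 := hi2.1
    omega

theorem part_full (X M : Finset V) (p q : ℕ) (h1 : (M \ X).card ≤ q + 1)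
    (h2 : (M ∩ X).card ≤ p + 1) : part X M p q (p + q + 1) = M := by
  apply Finset.Subset.antisymm (part_sub X M p q _)
  intro v hv
  obtain ⟨i, hi⟩ := fx_surj X M p q h1 h2 v hv
  refine (mem_part X M p q _ v).2 ⟨i, ?_, hi⟩
  refine Finset.mem_filter.2 ⟨Finset.mem_univ _, ?_⟩
  rcases fx_cases X M p q i v hi with hc | hc <;> omega

theorem bx_nonempty {ι : Type} (X : Finset V) (hX : X.Nonempty) (hXc : (Xᶜ).Nonempty)
    (l : ι → Bool) (o : ι → Option V) (i : ι) : (bx X l o i).Nonempty := by
  unfold bx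
  cases o i with
  | none =>
    show (sd X (l i)).Nonempty
    unfold sd
    split_ifs
    · exact hX
    · exact hXc
  | some v => exact Finset.singleton_nonempty v

theorem eta_mono {k B : ℕ} {η θ : ℕ → ℝ} {h δ : ℝ} (hc : Cst k B η θ h δ) (hk : 2 ≤ k) :
    ∀ i j, i ≤ j → j ≤ k → η i ≤ η j := by
  intro i j hij
  induction j, hij using Nat.le_induction with
  | base =>
    intro _
    exact le_refl _
  | succ j hij ih =>
    intro hj
    have h1 := ih (by omega)
    have h2 := hc.step j (by omega)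
    have h3 := hc.pos j (by omega)
    have h4 : (1 : ℝ) ≤ 8 * (k : ℝ) * 4 ^ k * ((B : ℝ) + 1) := by
      have a1 : (2 : ℝ) ≤ k := by exact_mod_cast hk
      have a2 : (1 : ℝ) ≤ 4 ^ k := one_le_pow₀ (by norm_num)
      have a3 : (0 : ℝ) ≤ B := Nat.cast_nonneg B
      nlinarith [mul_nonneg (by linarith : (0 : ℝ) ≤ 8 * (k : ℝ) - 1)
        (by linarith : (0 : ℝ) ≤ (4 : ℝ) ^ k - 1),
        mul_nonneg (by positivity : (0 : ℝ) ≤ 8 * (k : ℝ) * 4 ^ k) a3]
    nlinarith

theorem window_ordinary (h01 : StmtE01) (h05 : StmtE05) (h17 : StmtE17) (h18 : StmtE18)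
    (H : Finset (Finset V)) (X M : Finset V) (p q B a : ℕ) (δ h : ℝ) (η θ : ℕ → ℝ)
    (hX : X.Nonempty) (hXc : (Xᶜ).Nonempty) (hamb : Amb H X p q B δ)
    (hc : Cst (p + q + 2) B η θ h δ) (hM : Mst H X p q η M) (hneX : (M ∩ X).Nonempty)
    (hneY : (M \ X).Nonempty) (hMk : M.card ≤ p + q + 2) (ha : a ≠ p + q + 1)
    (ha2 : a + (p + q + 2) ≤ 3 * (p + q + 2) - 2) :
    dens (bx X (lt p q) (fx X M p q))
        (fun f => ¬ (win (3 * (p + q + 2) - 2) (p + q + 2) a).image f ∈ H) ≤
      3 * δ + η (M.card - 1) := by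
  have h1 : (M \ X).card ≤ q + 1 := hM.1.2.1
  have h2 : (M ∩ X).card ≤ p + 1 := hM.1.1
  have hss := part_ssub X M p q a h1 hneX hneY ha
  have hnon := hM.2 _ hss
  have hcard := Finset.card_lt_card hss
  have hc1 : (part X M p q a ∩ X).card ≤ p + 1 :=
    (Finset.card_le_card (Finset.inter_subset_inter_right hss.1)).trans h2
  have hc2 : (part X M p q a \ X).card ≤ q + 1 :=
    (Finset.card_le_card (Finset.sdiff_subset_sdiff hss.1 (Finset.Subset.refl X))).trans h1
  have hmono := eta_mono hc (by omega) (part X M p q a).card (M.card - 1) (by omega) (by omega)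
  have hcompl := (h01 V (Fin (3 * (p + q + 2) - 2)) (bx X (lt p q) (fx X M p q))
    (bx_nonempty X hX hXc _ _)).2.2.2.1
    (fun f => (win (3 * (p + q + 2) - 2) (p + q + 2) a).image f ∈ H)
  have hE := h17 V H X (part X M p q a) p q B δ η hamb hnon hc1 hc2
  rcases Nat.lt_or_gt_of_ne ha with hlt | hgt
  · obtain ⟨e1, e2, e3⟩ := window_dens h05 h18 H X M p q a hX hXc h1 h2 ha2 p (q + 2)
      (if_pos hlt) (if_pos hlt)
    have := hE.2 e1
    rw [e3] at hcompl
    linarith
  · obtain ⟨e1, e2, e3⟩ := window_dens h05 h18 H X M p q a hX hXc h1 h2 ha2 (p + 2) q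
      (by rw [if_neg (by omega), if_neg ha]) (by rw [if_neg (by omega), if_neg ha])
    have := hE.1 e2
    rw [e3] at hcompl
    linarith

theorem window_special (h05 : StmtE05) (h18 : StmtE18)
    (H : Finset (Finset V)) (X M : Finset V) (p q : ℕ) (η : ℕ → ℝ)
    (hX : X.Nonempty) (hXc : (Xᶜ).Nonempty) (hM : Mst H X p q η M) :
    η M.card < dens (bx X (lt p q) (fx X M p q))
        (fun f => (win (3 * (p + q + 2) - 2) (p + q + 2) (p + q + 1)).image f ∈ H) := by
  have h1 : (M \ X).card ≤ q + 1 := hM.1.2.1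
  have h2 : (M ∩ X).card ≤ p + 1 := hM.1.1
  obtain ⟨e1, e2, e3⟩ := window_dens h05 h18 H X M p q (p + q + 1) hX hXc h1 h2 (by omega)
      (p + 1) (q + 1) (by rw [if_neg (by omega), if_pos rfl]) (by rw [if_neg (by omega), if_pos rfl])
  rw [e3, part_full X M p q h1 h2]
  exact hM.1.2.2

/-! ### The ends -/

theorem dens_end (h02 : StmtE02) (X : Finset V) (hX : X.Nonempty) (hXc : (Xᶜ).Nonempty)
    {ι : Type} [Fintype ι] (l : ι → Bool) (o : ι → Option V) (w : List Bool) (S : Set (List V))
    (β : ℝ) (φ : Fin w.length → ι) (hφ : Function.Injective φ) (ho : ∀ i, o (φ i) = none)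
    (hl : ∀ i, l (φ i) = w.get i) (halm : Alm X w S β) :
    dens (bx X l o) (fun f => List.ofFn (f ∘ φ) ∉ S) ≤ β := by
  have h := h02 V ι (Fin w.length) (bx X l o) φ (bx_nonempty X hX hXc l o) hφ
    (fun g => List.ofFn g ∉ S)
  rw [h]
  have e : bx X l o ∘ φ = fun i : Fin w.length => sd X (w.get i) := by
    funext i
    show (o (φ i)).elim (sd X (l (φ i))) _ = _
    rw [ho i, hl i]
    rfl
  rw [e]
  exact halm

/-- The first positions. -/
def emLow (p q : ℕ) (i : Fin (low p q).length) : Fin (3 * (p + q + 2) - 2) :=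
  ⟨i.1, by have h := i.2; have h' := low_length p q; omega⟩

/-- The last positions. -/
def emHigh (p q : ℕ) (i : Fin (high p q).length) : Fin (3 * (p + q + 2) - 2) :=
  ⟨2 * (p + q + 2) - 1 + i.1, by have h := i.2; have h' := high_length p q; omega⟩

theorem emLow_inj (p q : ℕ) : Function.Injective (emLow p q) := by
  intro i j h
  apply Fin.ext
  have := congrArg Fin.val h
  simp only [emLow] at this
  exact this

theorem emHigh_inj (p q : ℕ) : Function.Injective (emHigh p q) := by
  intro i j h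
  apply Fin.ext
  have := congrArg Fin.val h
  simp only [emHigh] at this
  omega

theorem fx_emLow (X M : Finset V) (p q : ℕ) (h2 : (M ∩ X).card ≤ p + 1)
    (i : Fin (low p q).length) : fx X M p q (emLow p q i) = none := by
  have hi := i.2
  have hl := low_length p q
  unfold fx
  rw [dif_neg, dif_neg]
  · rintro ⟨ha, _⟩
    have : 2 * (p + q + 2) - 1 - (M ∩ X).card ≤ i.1 := ha
    omega
  · rintro ⟨ha, _⟩
    have : p + q + 1 ≤ i.1 := ha
    omega

theorem fx_emHigh (X M : Finset V) (p q : ℕ) (h1 : (M \ X).card ≤ q + 1)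
    (i : Fin (high p q).length) : fx X M p q (emHigh p q i) = none := by
  unfold fx
  rw [dif_neg, dif_neg]
  · rintro ⟨_, ha⟩
    have : 2 * (p + q + 2) - 1 + i.1 < 2 * (p + q + 2) - 1 := ha
    omega
  · rintro ⟨_, ha⟩
    have : 2 * (p + q + 2) - 1 + i.1 < p + q + 1 + (M \ X).card := ha
    omega

theorem lt_emLow (p q : ℕ) (i : Fin (low p q).length) :
    lt p q (emLow p q i) = (low p q).get i := by
  have hi := i.2
  have hi' : i.1 < p + q + 1 := by
    have hl := low_length p q
    omega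
  show (word p q).getD i.1 false = _
  rw [word_low p q i.1 hi', List.getD_eq_getElem _ _ hi]
  rfl

theorem lt_emHigh (p q : ℕ) (i : Fin (high p q).length) :
    lt p q (emHigh p q i) = (high p q).get i := by
  have hi := i.2
  show (word p q).getD (2 * (p + q + 2) - 1 + i.1) false = _
  rw [word_high p q _ (by omega)]
  have : 2 * (p + q + 2) - 1 + i.1 - (2 * (p + q + 2) - 1) = i.1 := by omega
  rw [this, List.getD_eq_getElem _ _ hi]
  rfl

theorem take_ofFn (p q : ℕ) (f : Fin (3 * (p + q + 2) - 2) → V) :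
    (List.ofFn f).take (p + q + 2 - 1) = List.ofFn (f ∘ emLow p q) := by
  apply List.ext_getElem
  · rw [List.length_take, List.length_ofFn, List.length_ofFn, low_length]
    omega
  · intro n h1 h2
    rw [List.getElem_take, List.getElem_ofFn, List.getElem_ofFn]
    rfl

theorem drop_ofFn (p q : ℕ) (f : Fin (3 * (p + q + 2) - 2) → V) :
    (List.ofFn f).drop (2 * (p + q + 2) - 1) = List.ofFn (f ∘ emHigh p q) := by
  apply List.ext_getElem
  · rw [List.length_drop, List.length_ofFn, List.length_ofFn, high_length]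
    omega
  · intro n h1 h2
    rw [List.getElem_drop, List.getElem_ofFn, List.getElem_ofFn]
    rfl

theorem amb_third {H : Finset (Finset V)} {X : Finset V} {p q B : ℕ} {δ : ℝ}
    (h : Amb H X p q B δ) : 0 < Fintype.card V ∧
      (∀ b, (Fintype.card V : ℝ) ≤ 3 * ((sd X b).card : ℝ)) ∧ X.Nonempty ∧ (Xᶜ).Nonempty := by
  have hpos := h.pos
  have hsm := h.small
  have hn : (0 : ℝ) < Fintype.card V := by
    have hb := h.big
    have h1 : (0 : ℝ) < 100 * ((p + q + 2 : ℕ) : ℝ) ^ 2 * ((B + p + q + 2 : ℕ) : ℝ) := by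
      have a1 : (0 : ℝ) < ((p + q + 2 : ℕ) : ℝ) := by exact_mod_cast (by omega : 0 < p + q + 2)
      have a2 : (0 : ℝ) < ((B + p + q + 2 : ℕ) : ℝ) := by
        exact_mod_cast (by omega : 0 < B + p + q + 2)
      positivity
    have h2 : 0 < δ * (Fintype.card V : ℝ) := lt_of_lt_of_le h1 hb
    exact (pos_iff_pos_of_mul_pos h2).1 hpos
  have hX : (Fintype.card V : ℝ) ≤ 3 * (X.card : ℝ) := by
    have := h.lo
    nlinarith
  have hXc : (Fintype.card V : ℝ) ≤ 3 * ((Xᶜ).card : ℝ) := by
    have := h.lo'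
    nlinarith
  refine ⟨by exact_mod_cast hn, ?_, ?_, ?_⟩
  · intro b
    cases b
    · exact hXc
    · exact hX
  · apply Finset.card_pos.1
    have : (0 : ℝ) < (X.card : ℝ) := by linarith
    exact_mod_cast this
  · apply Finset.card_pos.1
    have : (0 : ℝ) < ((Xᶜ).card : ℝ) := by linarith
    exact_mod_cast this

theorem num_deg (K mm B W : ℝ) (hK : 2 ≤ K) (hm0 : 0 ≤ mm) (hm : mm ≤ 3 * K) (hB : 0 ≤ B)
    (hW : W ≤ B + K) : 3 * (mm ^ 2 + mm * W) ≤ 100 * K ^ 2 * (B + K) := by
  have e1 : mm ^ 2 ≤ 9 * K ^ 2 := by nlinarith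
  have e2 : mm * W ≤ mm * (B + K) := mul_le_mul_of_nonneg_left hW hm0
  have e3 : mm * (B + K) ≤ 3 * K * (B + K) := mul_le_mul_of_nonneg_right hm (by linarith)
  have e4 : 3 * (mm ^ 2 + mm * W) ≤ 36 * K ^ 2 + 9 * K * B := by nlinarith
  refine e4.trans ?_
  have e5 : 0 ≤ K * B := mul_nonneg (by linarith) hB
  have e6 : 0 ≤ K ^ 2 * (K - 2) := mul_nonneg (by positivity) (by linarith)
  have e7 : 0 ≤ (K - 2) * (K * B) := mul_nonneg (by linarith) e5
  nlinarith [sq_nonneg K]

theorem num_total (k : ℕ) (B δ β e e0 E h : ℝ) (hk : 2 ≤ k) (hB : 0 ≤ B) (hδ : 0 < δ)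
    (hβ : β ≤ δ) (he : 0 < e) (he0 : e0 ≤ e) (he00 : 0 < e0) (hh : 0 < h)
    (hh1 : h ≤ 1 / (8 * (k : ℝ) * 2 ^ k))
    (hstep : 8 * (k : ℝ) * 4 ^ k * (B + 1) * e ≤ E)
    (hds : 100 * (k : ℝ) * 4 ^ k * (B + 1) * δ ≤ e0 * h) :
    ((2 * k - 1 : ℕ) : ℝ) * (3 * δ + e) + 2 * β + δ < E := by
  have hK : (2 : ℝ) ≤ k := by exact_mod_cast hk
  have h4 : (1 : ℝ) ≤ 4 ^ k := one_le_pow₀ (by norm_num)
  have h2 : (1 : ℝ) ≤ 2 ^ k := one_le_pow₀ (by norm_num)
  have hc : ((2 * k - 1 : ℕ) : ℝ) ≤ 2 * (k : ℝ) := by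
    exact_mod_cast (by omega : 2 * k - 1 ≤ 2 * k)
  have hh2 : h ≤ 1 := by
    refine hh1.trans ?_
    rw [div_le_one (by positivity)]
    nlinarith
  have a1 : 100 * (k : ℝ) * δ ≤ e := by
    have b1 : 100 * (k : ℝ) * δ ≤ 100 * (k : ℝ) * 4 ^ k * (B + 1) * δ := by
      have b2 : (1 : ℝ) ≤ 4 ^ k * (B + 1) := by nlinarith
      have b3 : 0 ≤ 100 * (k : ℝ) * δ := by positivity
      nlinarith
    have b4 : e0 * h ≤ e0 := by nlinarith
    linarith
  have a2 : 8 * (k : ℝ) * e ≤ E := by
    have b2 : (1 : ℝ) ≤ 4 ^ k * (B + 1) := by nlinarith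
    have b3 : 0 ≤ 8 * (k : ℝ) * e := by positivity
    nlinarith
  have a3 : ((2 * k - 1 : ℕ) : ℝ) * (3 * δ + e) ≤ 2 * (k : ℝ) * (3 * δ + e) :=
    mul_le_mul_of_nonneg_right hc (by linarith)
  nlinarith

/-- **E19** Crossing with a bi-coloured minimal non-normal set. -/
theorem e19 (h01 : StmtE01) (h02 : StmtE02) (h04 : StmtE04) (h05 : StmtE05) (h16 : StmtE16)
    (h17 : StmtE17) (h18 : StmtE18) : StmtE19 := by
  intro V _ _ H X M F p q B δ h β η θ S T hamb hc hβ hM hneX hneY hFB hMF hS hT
  obtain ⟨hn0, hthird, hX, hXc⟩ := amb_third hamb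
  have h1 : (M \ X).card ≤ q + 1 := hM.1.2.1
  have h2 : (M ∩ X).card ≤ p + 1 := hM.1.1
  have hMk : M.card ≤ p + q + 2 := by
    have := Finset.card_inter_add_card_sdiff M X
    omega
  have hM1 : 1 ≤ M.card := by
    have := Finset.card_inter_add_card_sdiff M X
    have := Finset.card_pos.2 hneX
    omega
  have hbox := bx_nonempty X hX hXc (lt p q) (fx X M p q)
  obtain ⟨d1, d2, d3, d4, d5, d6⟩ := h01 V (Fin (3 * (p + q + 2) - 2))
    (bx X (lt p q) (fx X M p q)) hbox
  have hsp := window_special h05 h18 H X M p q η hX hXc hM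
  have hlow := dens_end h02 X hX hXc (lt p q) (fx X M p q) (low p q) S β (emLow p q)
    (emLow_inj p q) (fx_emLow X M p q h2) (lt_emLow p q) hS
  have hhigh := dens_end h02 X hX hXc (lt p q) (fx X M p q) (high p q) T β (emHigh p q)
    (emHigh_inj p q) (fx_emHigh X M p q h1) (lt_emHigh p q) hT
  have hdeg := h04 V (Fin (3 * (p + q + 2) - 2)) X (F ∪ M) (lt p q) (fx X M p q) hn0 hthird
    (fx_inj X M p q)
  -- the ordinary windows
  have hwin := d6 (Fin (2 * (p + q + 2) - 1)) (fun a f => (a : ℕ) ≠ p + q + 1 ∧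
    ¬ (win (3 * (p + q + 2) - 2) (p + q + 2) (a : ℕ)).image f ∈ H)
  have hη0 : 0 < η (M.card - 1) := hc.pos _ (by omega)
  have hδ := hamb.pos
  have hwin2 : ∑ a : Fin (2 * (p + q + 2) - 1), dens (bx X (lt p q) (fx X M p q))
      (fun f => (a : ℕ) ≠ p + q + 1 ∧
        ¬ (win (3 * (p + q + 2) - 2) (p + q + 2) (a : ℕ)).image f ∈ H) ≤
      ((2 * (p + q + 2) - 1 : ℕ) : ℝ) * (3 * δ + η (M.card - 1)) := by
    refine (Finset.sum_le_card_nsmul _ _ (3 * δ + η (M.card - 1)) ?_).trans_eq ?_
    · intro a _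
      by_cases ha : (a : ℕ) = p + q + 1
      · have hle := d2 (fun f => (a : ℕ) ≠ p + q + 1 ∧
          ¬ (win (3 * (p + q + 2) - 2) (p + q + 2) (a : ℕ)).image f ∈ H) (fun _ => False)
          (fun f _ hf => hf.1 ha)
        have hz : dens (bx X (lt p q) (fx X M p q)) (fun _ => False) = 0 := by
          have e1 := d4 (fun _ => False)
          have e2 := (d1 (fun _ => False)).1
          have e3 := (d1 (fun _ : Fin (3 * (p + q + 2) - 2) → V => ¬ False)).2
          have e4 := d4 (fun _ : Fin (3 * (p + q + 2) - 2) → V => ¬ False)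
          unfold dens at e1 e2 e3 e4 ⊢
          simp only [and_false, Set.setOf_false, Set.ncard_empty, Nat.cast_zero, zero_div]
        rw [hz] at hle
        linarith
      · refine (d2 _ _ ?_).trans (window_ordinary h01 h05 h17 h18 H X M p q B a δ h η θ hX hXc
          hamb hc hM hneX hneY hMk ha (by have := a.2; omega))
        intro f _ hf
        exact hf.2
    · rw [Finset.card_univ, Fintype.card_fin, nsmul_eq_mul]
  -- the total failing density
  have hcard : ((F ∪ M).card : ℝ) ≤ (B : ℝ) + (p + q + 2 : ℕ) := by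
    have e1 := Finset.card_union_le F M
    exact_mod_cast e1.trans (by omega)
  have hdeg2 : dens (bx X (lt p q) (fx X M p q))
      (fun f => ¬ (Function.Injective f ∧ ∀ i, fx X M p q i = none → f i ∉ F ∪ M)) ≤ δ := by
    refine hdeg.trans ?_
    have hbig := hamb.big
    have hn : (0 : ℝ) < Fintype.card V := by exact_mod_cast hn0
    rw [div_le_iff₀ hn]
    refine le_trans ?_ hbig
    rw [Fintype.card_fin]
    have hk : (2 : ℝ) ≤ ((p + q + 2 : ℕ) : ℝ) := by exact_mod_cast (by omega : 2 ≤ p + q + 2)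
    have hm : ((3 * (p + q + 2) - 2 : ℕ) : ℝ) ≤ 3 * ((p + q + 2 : ℕ) : ℝ) := by
      exact_mod_cast (by omega : 3 * (p + q + 2) - 2 ≤ 3 * (p + q + 2))
    have hB : (0 : ℝ) ≤ B := Nat.cast_nonneg B
    have hBk : ((B + p + q + 2 : ℕ) : ℝ) = (B : ℝ) + ((p + q + 2 : ℕ) : ℝ) := by
      push_cast
      ring
    rw [hBk]
    exact num_deg _ _ _ _ hk (Nat.cast_nonneg _) hm hB hcard
  have hnum := num_total (p + q + 2) B δ β (η (M.card - 1)) (η 0) (η M.card) h (by omega)
    (Nat.cast_nonneg B) hδ hβ hη0 (eta_mono hc (by omega) 0 (M.card - 1) (by omega) (by omega))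
    (hc.pos 0 (by omega)) hc.hpos hc.hsmall (by
      have := hc.step (M.card - 1) (by omega)
      rw [Nat.sub_add_cancel hM1] at this
      exact this) hc.dsmall
  -- the event
  have u1 := d3 (fun f => List.ofFn (f ∘ emHigh p q) ∉ T)
    (fun f => ¬ (Function.Injective f ∧ ∀ i, fx X M p q i = none → f i ∉ F ∪ M))
  have u2 := d3 (fun f => List.ofFn (f ∘ emLow p q) ∉ S)
    (fun f => List.ofFn (f ∘ emHigh p q) ∉ T ∨
      ¬ (Function.Injective f ∧ ∀ i, fx X M p q i = none → f i ∉ F ∪ M))
  have u3 := d3 (fun f => ∃ a : Fin (2 * (p + q + 2) - 1), (a : ℕ) ≠ p + q + 1 ∧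
      ¬ (win (3 * (p + q + 2) - 2) (p + q + 2) (a : ℕ)).image f ∈ H)
    (fun f => List.ofFn (f ∘ emLow p q) ∉ S ∨ (List.ofFn (f ∘ emHigh p q) ∉ T ∨
      ¬ (Function.Injective f ∧ ∀ i, fx X M p q i = none → f i ∉ F ∪ M)))
  set Bad : (Fin (3 * (p + q + 2) - 2) → V) → Prop := fun f =>
    (∃ a : Fin (2 * (p + q + 2) - 1), (a : ℕ) ≠ p + q + 1 ∧
      ¬ (win (3 * (p + q + 2) - 2) (p + q + 2) (a : ℕ)).image f ∈ H) ∨
    (List.ofFn (f ∘ emLow p q) ∉ S ∨ (List.ofFn (f ∘ emHigh p q) ∉ T ∨
      ¬ (Function.Injective f ∧ ∀ i, fx X M p q i = none → f i ∉ F ∪ M))) with hBad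
  have u4 := d3 (fun f =>
    (win (3 * (p + q + 2) - 2) (p + q + 2) (p + q + 1)).image f ∈ H ∧ ¬ Bad f) Bad
  have u5 := d2 (fun f => (win (3 * (p + q + 2) - 2) (p + q + 2) (p + q + 1)).image f ∈ H)
    (fun f => ((win (3 * (p + q + 2) - 2) (p + q + 2) (p + q + 1)).image f ∈ H ∧ ¬ Bad f) ∨
      Bad f) (fun f _ hf => by
        by_cases hb : Bad f
        · exact Or.inr hb
        · exact Or.inl ⟨hf, hb⟩)
  have u6 : 0 < dens (bx X (lt p q) (fx X M p q)) (fun f =>
    (win (3 * (p + q + 2) - 2) (p + q + 2) (p + q + 1)).image f ∈ H ∧ ¬ Bad f) := by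
    linarith
  obtain ⟨f, hfb, hfw, hfn⟩ := d5 _ u6
  rw [hBad] at hfn
  obtain ⟨g1, hfn⟩ := not_or.1 hfn
  obtain ⟨g2, hfn⟩ := not_or.1 hfn
  obtain ⟨g3, hfn⟩ := not_or.1 hfn
  have g2 := not_not.1 g2
  have g3 := not_not.1 g3
  obtain ⟨g4, g5⟩ := not_not.1 hfn
  have hfix : ∀ i v, fx X M p q i = some v → f i = v := by
    intro i v hv
    have := hfb i
    unfold bx at this
    rw [hv] at this
    exact Finset.mem_singleton.1 this
  refine ⟨List.ofFn f, ?_, ?_, ?_, ?_, ?_, ?_⟩
  · refine h16 V H (p + q + 2) (3 * (p + q + 2) - 2) f g4 ?_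
    intro a ha
    by_cases hae : a = p + q + 1
    · rw [hae]
      exact hfw
    · by_contra hcon
      exact g1 ⟨⟨a, by omega⟩, hae, hcon⟩
  · rw [List.length_ofFn]
  · rw [take_ofFn]
    exact g2
  · rw [drop_ofFn]
    exact g3
  · intro v hv
    obtain ⟨i, hi⟩ := fx_surj X M p q h1 h2 v hv
    rw [List.mem_toFinset, List.mem_ofFn]
    exact ⟨i, hfix i v hi⟩
  · rw [Finset.disjoint_left]
    intro v hv hvF
    rw [List.mem_toFinset, List.mem_ofFn] at hv
    obtain ⟨i, hi⟩ := hv
    cases ho : fx X M p q i with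
    | none =>
      have := g5 i ho
      rw [hi] at this
      exact this (Finset.mem_union_left _ hvF)
    | some w =>
      have hw := hfix i w ho
      rw [hi] at hw
      have hwM : w ∈ M := by
        rcases fx_cases X M p q i w ho with hc' | hc'
        · exact (Finset.mem_sdiff.1 hc'.2.2).1
        · exact (Finset.mem_inter.1 hc'.2.2).1
      rw [← hw] at hwM
      exact Finset.disjoint_left.1 hMF hwM hvF

end Main

end Pool.Agent.KK.E.H47
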